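import Pool.Agent.N702.AM.Asm

/-!
# Splittings of the groups with the finite quotients of `SL_n(ℤ)`, `n ≥ 3`

Let `n ≥ 3` and let `Λ` be a group all of whose finite quotients are quotients of `SL_n(ℤ)`, for
example a group with the same finite quotients as `SL_n(ℤ)`, as in Q1. Let `K` be a subgroup of
finite index in `Λ`. Then:

* `K` has no nontrivial homomorphism to `ℤ` (so it is not an HNN extension);
* if `K = A *_C B` is an amalgamated product of subgroups `A` and `B`, `C = A ∩ B`, then `B` is dense
  in `K` for the profinite topology and `A` has the same closure as `C` (`A` and `C` have the same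
  image in every finite quotient of `K`), or the same with `A` and `B` exchanged;
* so if `C` is closed in the profinite topology of `K` (separable) then the splitting is trivial:
  `A = K` or `B = K`. If `Λ` is residually finite this is the case if `C` is finite, or the
  centralizer of a subset of `K`, for example a maximal abelian subgroup of `K`.

By the theory of Bass and Serre every action without inversions and without a fixed vertex of a
finitely generated group on a tree gives a nontrivial decomposition as HNN extension or
amalgamated product. `SL_n(ℤ)` itself has Serre's property FA, but FA is not determined by the finite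
quotients: Cheetham-West, Lubotzky, Remeslennikov and Stalder found residually finite groups with the
same finite quotients such that one of them has FA and the other is a nontrivial amalgamated product.
Related: a group with a nontrivial splitting over a separable subgroup has a subgroup of finite
index with a homomorphism onto `ℤ` (Lubotzky 1996).

Proof. (a) A subgroup `N` of finite index with a homomorphism onto `ℤ` gives finite quotients of `Λ`,
of unbounded order, with an abelian normal subgroup of bounded index `k`. They are quotients of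
`SL_n(ℤ)`, and in them the elementary matrices satisfy `e_ij(k ^ 2) = [e_il(k), e_lj(k)] = 1`. Modulo
the normal closure of the `k ^ 2`-th powers of the elementary matrices a congruence subgroup is
central, and Schur's theorem bounds the order of the quotient: a contradiction. (b) Let `K → Q` be a
finite quotient with kernel `N`, and `m` an integral function on `Q / C`. The homomorphisms
`a ↦ (0, a)` and `b ↦ (m - b m, b)` from `A` and `B` to the semidirect product of the functions on
`Q` by `Q` define a homomorphism of `K`, which is trivial on `N` by (a). So it gives a cocycle on the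
finite group `Q`; averaging shows that `|Q| m` is the sum of a function on `Q / A` and a function on
`Q / B`. Comparing dimensions, `|Q / C| + 1 ≤ |Q / A| + |Q / B|`, where `A`, `B`, `C` stand for the
images in `Q`; hence `C` has the same image as `A` or as `B`. (c) One of the two possibilities holds
for all finite quotients at the same time, since every two of them are dominated by a third one.

Parts of the proof: `Pool/Agent/N702/AM/COUNT.lean` by helper296, `GLUE.lean` by helper390;
`Pool/Agent/N702/CP/GEN.lean` by helper371, `CEN.lean` by helper736, `BND.lean` by helper395.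
-/

set_option autoImplicit false

namespace Pool.Agent.Results.MP_a2a22c_al.AmalgamSplittings

/-- All finite quotients of `Λ` are quotients of `SL_n(ℤ)`. -/
def QuotientsOfSL (n : ℕ) (Λ : Type) [Group Λ] : Prop :=
  ∀ (Q : Type) [Group Q] [Finite Q], (∃ f : Λ →* Q, Function.Surjective f) →
    ∃ f : Matrix.SpecialLinearGroup (Fin n) ℤ →* Q, Function.Surjective f

/-- `G` is the amalgamated product of its subgroups `A` and `B` over `A ∩ B` (universal property):
all homomorphisms from `A` and `B` to a group `H` which agree on `A ∩ B` have a unique common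
extension to `G`. -/
def IsAmalgam {G : Type} [Group G] (A B : Subgroup G) : Prop :=
  ∀ (H : Type) [Group H] (α : A →* H) (β : B →* H),
    (∀ (x : G) (ha : x ∈ A) (hb : x ∈ B), α ⟨x, ha⟩ = β ⟨x, hb⟩) →
    ∃! γ : G →* H, (∀ a : A, γ a = α a) ∧ ∀ b : B, γ b = β b

/-- `x` is in the closure of the subgroup `S` for the profinite topology of `G`: modulo every normal
subgroup of finite index it is congruent to an element of `S`. -/
def InClosure {G : Type} [Group G] (S : Subgroup G) (x : G) : Prop :=
  ∀ N : Subgroup G, N.Normal → N.FiniteIndex → ∃ s ∈ S, s⁻¹ * x ∈ N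

/-- Every element different from `1` is different from `1` in some finite quotient. -/
def ResiduallyFinite (G : Type) [Group G] : Prop :=
  ∀ x : G, x ≠ 1 → ∃ N : Subgroup G, N.Normal ∧ N.FiniteIndex ∧ x ∉ N

lemma rf_sub {G : Type} [Group G] (h : ResiduallyFinite G) (K : Subgroup G) :
    ResiduallyFinite K := by
  intro x hx
  obtain ⟨N, hn, hf, hN⟩ := h x (fun h => hx (Subtype.ext h))
  exact ⟨N.subgroupOf K, inferInstance, inferInstance, fun h => hN h⟩

lemma closed_finite {G : Type} [Group G] (h : ResiduallyFinite G) (C : Subgroup G)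
    (hC : Finite C) (x : G) (hx : InClosure C x) : x ∈ C := by
  classical
  by_contra hxC
  have h1 : ∀ c : C, ∃ N : Subgroup G, N.Normal ∧ N.FiniteIndex ∧ (c : G)⁻¹ * x ∉ N := by
    intro c
    refine h _ (fun h2 => hxC ?_)
    have h3 : x = c := by
      rw [inv_mul_eq_one] at h2
      exact h2.symm
    rw [h3]
    exact c.2
  choose N hn hf hN using h1
  have h2 : (⨅ c, N c).Normal := Subgroup.normal_iInf_normal hn
  have h3 : (⨅ c, N c).FiniteIndex := Subgroup.finiteIndex_iInf hf
  obtain ⟨s, hs, hsx⟩ := hx _ h2 h3
  exact hN ⟨s, hs⟩ (Subgroup.mem_iInf.1 hsx ⟨s, hs⟩)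

lemma closed_centralizer {G : Type} [Group G] (h : ResiduallyFinite G) (S : Set G) (x : G)
    (hx : InClosure (Subgroup.centralizer S) x) : x ∈ Subgroup.centralizer S := by
  rw [Subgroup.mem_centralizer_iff]
  intro s hs
  by_contra hne
  obtain ⟨N, hn, hf, hN⟩ := h (s * x * (x * s)⁻¹) (fun h1 => hne (mul_inv_eq_one.1 h1))
  obtain ⟨c, hc, hcx⟩ := hx N hn hf
  apply hN
  have h1 := Subgroup.mem_centralizer_iff.1 hc s hs
  have h2 : s * x * (x * s)⁻¹ =
      (s * c) * (c⁻¹ * x) * (s⁻¹ * (c⁻¹ * x)⁻¹ * s) * (s * c)⁻¹ := by
    have h3 : (x * s)⁻¹ = s⁻¹ * (c⁻¹ * x)⁻¹ * s * (c * s)⁻¹ := by group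
    rw [h3, ← h1]
    group
  rw [h2]
  have h3 : s⁻¹ * (c⁻¹ * x)⁻¹ * s ∈ N := by
    have := hn.conj_mem _ (N.inv_mem hcx) s⁻¹
    rwa [inv_inv] at this
  have h4 := hn.conj_mem _ (N.mul_mem hcx h3) (s * c)
  rwa [← mul_assoc (s * c)] at h4

/-- Let `n ≥ 3`, let all finite quotients of `Λ` be quotients of `SL_n(ℤ)`, and let `K` be a subgroup
of finite index. (1) Every homomorphism from `K` to the integers is trivial. Let `K` be the amalgamated
product of its subgroups `A` and `B` over `A ∩ B`. (2) In the profinite topology of `K`, `B` is dense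
and `A` is contained in the closure of `A ∩ B`, or `A` is dense and `B` is contained in the
closure of `A ∩ B`. (3) If `A ∩ B` is closed then `A = K` or `B = K`. (4) This is the case if `Λ` is
residually finite, and `A ∩ B` is finite or the centralizer in `K` of a subset of `K`. -/
theorem result (n : ℕ) (hn : 3 ≤ n) (Λ : Type) [Group Λ] (hΛ : QuotientsOfSL n Λ)
    (K : Subgroup Λ) (hK : K.FiniteIndex) :
    (∀ χ : K →* Multiplicative ℤ, χ = 1) ∧
    ∀ A B : Subgroup K, IsAmalgam A B →
      (((∀ x, InClosure B x) ∧ ∀ a ∈ A, InClosure (A ⊓ B) a) ∨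
        ((∀ x, InClosure A x) ∧ ∀ b ∈ B, InClosure (A ⊓ B) b)) ∧
      ((∀ x, InClosure (A ⊓ B) x → x ∈ A ⊓ B) → A = ⊤ ∨ B = ⊤) ∧
      (ResiduallyFinite Λ → (Finite (A ⊓ B : Subgroup K) ∨
        ∃ S : Set K, A ⊓ B = Subgroup.centralizer S) → A = ⊤ ∨ B = ⊤) := by
  have hfab : Pool.Agent.N702.AM.Asm.Fab Λ := Pool.Agent.N702.AM.t_FAB n hn Λ hΛ
  have hG : Pool.Agent.N702.AM.Asm.Fab K := Pool.Agent.N702.AM.Asm.fab_sub hfab K hK
  refine ⟨hfab K hK, fun A B h => ?_⟩
  have hsup : A ⊔ B = ⊤ := Pool.Agent.N702.AM.Asm.sup_eq_top h
  have h2 : ((∀ x, InClosure B x) ∧ ∀ a ∈ A, InClosure (A ⊓ B) a) ∨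
      ((∀ x, InClosure A x) ∧ ∀ b ∈ B, InClosure (A ⊓ B) b) := by
    rcases Pool.Agent.N702.AM.Asm.all_quotients hG h with h3 | h3
    · exact Or.inl ⟨fun x N hn hf => Pool.Agent.N702.AM.Asm.dense h N hn (h3 N hn hf) x,
        fun a ha N hn hf => h3 N hn hf a ha⟩
    · refine Or.inr ⟨fun x N hn hf => Pool.Agent.N702.AM.Asm.dense
        (Pool.Agent.N702.AM.Asm.comm h) N hn ?_ x, fun b hb N hn hf => h3 N hn hf b hb⟩
      have h4 := h3 N hn hf
      rwa [inf_comm] at h4
  have h3 : (∀ x, InClosure (A ⊓ B) x → x ∈ A ⊓ B) → A = ⊤ ∨ B = ⊤ := by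
    intro hc
    rcases h2 with h4 | h4
    · right
      rw [← hsup, eq_comm, sup_eq_right]
      exact fun a ha => (hc a (h4.2 a ha)).2
    · left
      rw [← hsup, eq_comm, sup_eq_left]
      exact fun b hb => (hc b (h4.2 b hb)).1
  refine ⟨h2, h3, fun hrf hfin => h3 ?_⟩
  have hrK : ResiduallyFinite K := rf_sub hrf K
  rcases hfin with hf | ⟨S, hS⟩
  · exact closed_finite hrK _ hf
  · rw [hS]
    exact closed_centralizer hrK S

end Pool.Agent.Results.MP_a2a22c_al.AmalgamSplittings
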