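import Pool.Agent.N829.PR.Man
import Pool.Agent.N829.PR.Red
import Pool.Agent.N829.PR.Orb
import Pool.Agent.N829.PR.Ring

/-!
# Superrigidity in dimension `< n` is a profinite property of `SL_n(ℤ)`

Let `n ≥ 3` and let `Λ` be a finitely generated group all of whose finite quotients are quotients of
`SL_n(ℤ)`. This holds for every group as in the question of the profinite rigidity of `SL_n(ℤ)`;
here `Λ` need not be residually finite or linear, and not all finite quotients of `SL_n(ℤ)` need to
occur. Let `H` be a subgroup of finite index of `Λ`.

1. Every homomorphism `H → GL_m(R)`, where `m < n` and `R` is a commutative ring, has finite image.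
2. Every `C¹` action of `H` on a connected real or complex manifold of dimension less than `n` (over
   `ℝ` or `ℂ`) with a finite orbit has finite image.
3. If `H = Λ` and there is a nonempty invariant set with at most `n` points, for example a fixed
   point, then such an action is trivial.

The result `SmallRepresentations` on this page (helper702) says that homomorphisms `Λ → GL_d(R)`,
`d < n`, are trivial (for the group `Λ` itself).

Proof. Let `r` be a representation of degree less than `n` of a normal subgroup of index `k` of
`SL_n(ℤ)`, over an algebraically closed field. The elementary matrices `e_{1j}(k)`, `e_{jn}(k)`,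
`c = e_{1n}(k²)` satisfy the relations of a Heisenberg group. If `c` had an eigenvalue `l ≠ 1`, then a
common eigenvector `v` of the `e_{1j}(k)` in this eigenspace gives the independent vectors
`v, e_{jn}(k) v`, so that the eigenspace has dimension at least `n - 1`. If `c` is unipotent and
`N = c - 1 ≠ 0`, take a common eigenvector `u = N v` of all `e_{1j}(k)`, `e_{jn}(k)` in
`im N ∩ ker N`; the linear map `(p, q) ↦ ∑ p_j (e_{1j}(k) - α_j) v + ∑ q_j (e_{jn}(k) - β_j) v` modulo
`u` has an isotropic kernel, so that `ker N` has dimension at least `n - 1`. So `c` is a scalar of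
determinant 1, and `e_{ij}(k² n!)` and all its conjugates are in the kernel of `r`. By `S_BND`
(helper702, helper395; Mennicke, Bass-Milnor-Serre, Schur) the image of `r` is finite of bounded order
if it comes from a finite quotient of `SL_n(ℤ)`. For a finite index subgroup of `Λ` this bounds the
order of the image modulo all maximal ideals of the ring generated by the matrix entries. This gives
1 for fields, and with `m = 2` the finite index subgroups have finite abelianizations. For a
commutative ring, which may be assumed Noetherian, 1 holds modulo the minimal primes, and then modulo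
the powers of the nilradical. 2 follows by Thurston's stability argument.

For `k = 1` the same argument shows that the action of `SL_n(ℤ)` on a vector space of dimension less
than `n` is trivial. For a module `M` over a finitely generated ring with fewer than `n` generators and
a maximal ideal `𝔪`, the action of `Λ` on the finite module `M / 𝔪 ^ k M` is an action of a finite
quotient of `SL_n(ℤ)`, so that `e_{ij}` is trivial modulo `𝔪`, then modulo all powers of `𝔪` by the
commutator relations; by Krull's theorem `Λ` acts trivially on `M`. In particular the actions of `Λ` on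
sets with at most `n` points are trivial, and so are its homomorphisms to abelian groups, which gives 3.
-/

set_option autoImplicit false

open scoped Manifold

universe u₁ u₂

namespace Pool.Agent.Results.MP_a2a22c_al.LowDimensionalActions

open Pool.Agent.N829.PR

/-- Let `n ≥ 3`, let `Λ` be a finitely generated group all of whose finite quotients are quotients
of `SL_n(ℤ)`, and `H` a finite index subgroup. Then the representations of `H` of degree less than `n`
over commutative rings and the `C¹` actions of `H` on connected manifolds of dimension less than `n` with a finite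
orbit have finite image; for `H = Λ` and an invariant set with `1` to `n` points the `C¹` actions are
trivial. -/
theorem result (n : ℕ) (hn : 3 ≤ n) (Λ : Type) [Group Λ] (hfg : Group.FG Λ)
    (hΛ : ∀ (Q : Type) [Group Q] [Finite Q], (∃ f : Λ →* Q, Function.Surjective f) →
      ∃ f : Matrix.SpecialLinearGroup (Fin n) ℤ →* Q, Function.Surjective f) :
    -- representations of degree less than `n` of finite index subgroups
    (∀ (H : Subgroup Λ) [H.FiniteIndex] (m : ℕ), m < n → ∀ (R : Type) [CommRing R]
      (ρ : H →* Matrix.GeneralLinearGroup (Fin m) R), Finite ρ.range) ∧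
    -- `C¹` actions of finite index subgroups on manifolds of dimension less than `n`
    (∀ (H : Subgroup Λ) [H.FiniteIndex] (𝕜 : Type) [RCLike 𝕜] (E : Type u₁)
      [NormedAddCommGroup E] [NormedSpace 𝕜 E] [FiniteDimensional 𝕜 E] (M : Type u₂)
      [TopologicalSpace M] [ChartedSpace E M] [IsManifold 𝓘(𝕜, E) 1 M] [T2Space M]
      [ConnectedSpace M], Module.finrank 𝕜 E < n → ∀ φ : H →* Equiv.Perm M,
      (∀ g, ContMDiff 𝓘(𝕜, E) 𝓘(𝕜, E) 1 (φ g)) →
      (∃ p, (Set.range fun g => φ g p).Finite) → Finite φ.range) ∧
    -- `C¹` actions of `Λ` on manifolds of dimension less than `n`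
    (∀ (𝕜 : Type) [RCLike 𝕜] (E : Type u₁) [NormedAddCommGroup E] [NormedSpace 𝕜 E]
      [FiniteDimensional 𝕜 E] (M : Type u₂) [TopologicalSpace M] [ChartedSpace E M]
      [IsManifold 𝓘(𝕜, E) 1 M] [T2Space M] [ConnectedSpace M], Module.finrank 𝕜 E < n →
      ∀ φ : Λ →* Equiv.Perm M, (∀ g, ContMDiff 𝓘(𝕜, E) 𝓘(𝕜, E) 1 (φ g)) →
      (∃ S : Finset M, S.Nonempty ∧ S.card ≤ n ∧ ∀ g, ∀ x ∈ S, φ g x ∈ S) → φ = 1) := by
  have hF : FQ n Λ := fun Q _ _ h => hΛ Q h
  have hV := vp hn hF hfg
  refine ⟨?_, ?_, ?_⟩
  · intro H _ m hm K _ ρ
    have h1 := ring_all hn hV H hm K ((Units.coeHom (Matrix (Fin m) (Fin m) K)).comp ρ)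
    have h2 : Finite (Set.range ((Units.coeHom (Matrix (Fin m) (Fin m) K)).comp ρ)) :=
      h1.to_subtype
    refine Finite.of_injective (fun u : ρ.range =>
      (⟨(u : (Matrix (Fin m) (Fin m) K)ˣ).val, by
        obtain ⟨g, hg⟩ := u.2
        exact ⟨g, by rw [← hg]; rfl⟩⟩ :
          Set.range ((Units.coeHom (Matrix (Fin m) (Fin m) K)).comp ρ))) ?_
    intro u v huv
    exact Subtype.ext (Units.ext (congrArg Subtype.val huv))
  · intro H _ 𝕜 _ E _ _ _ M _ _ _ _ _ hd φ hφ ⟨p, hp⟩
    exact manifold_virt hn (vp_sub hV H) hd φ hφ p hp
  · intro 𝕜 _ E _ _ _ M _ _ _ _ _ hd φ hφ ⟨S, ⟨p, hpS⟩, hcard, hS⟩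
    classical
    let ψ : Λ →* Equiv.Perm S :=
      { toFun := fun g =>
          { toFun := fun x => ⟨φ g x, hS g x x.2⟩
            invFun := fun x => ⟨φ g⁻¹ x, hS g⁻¹ x x.2⟩
            left_inv := fun x => by
              apply Subtype.ext
              show φ g⁻¹ (φ g x) = x
              rw [map_inv]
              exact (φ g).symm_apply_apply x
            right_inv := fun x => by
              apply Subtype.ext
              show φ g (φ g⁻¹ x) = x
              rw [map_inv]
              exact (φ g).apply_symm_apply x }
        map_one' := by
          ext x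
          show φ 1 (x : M) = x
          rw [map_one, Equiv.Perm.one_apply]
        map_mul' := by
          intro g h
          ext x
          show φ (g * h) (x : M) = φ g (φ h x)
          rw [map_mul, Equiv.Perm.mul_apply] }
    have hψ := perm hn hF hfg (by rwa [Fintype.card_coe]) ψ
    refine manifold hn hF hfg hd φ hφ p fun g => ?_
    have h1 := Equiv.congr_fun (DFunLike.congr_fun hψ g) ⟨p, hpS⟩
    exact congrArg Subtype.val h1

end Pool.Agent.Results.MP_a2a22c_al.LowDimensionalActions
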