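import Pool.Agent.N702.CP.Asm
import Pool.Agent.N702.CP.GEN
import Pool.Agent.N702.CP.CEN
import Pool.Agent.N702.CP.BND
import Pool.Agent.N702.CP.FLD
import Pool.Agent.N702.CP.UNI
import Pool.Agent.N702.CP.SEP

/-!
# Superrigidity in positive characteristic is a profinite property of `SL_n(ℤ)`, `n ≥ 3`

For `n ≥ 3`, a prime `p` and `d` there is `B` such that for every finitely generated group `Λ` all of
whose finite quotients are quotients of `SL_n(ℤ)` and every commutative ring `R` of characteristic
`p`, every homomorphism `Λ → GL_d(R)` has an image of order at most `B`. In particular a group with the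
finite quotients of `SL_n(ℤ)` is not linear over a field (or commutative ring) of prime
characteristic.

Proof. The images of `Λ` in `GL_d(A/J)`, `A` the finitely generated ring of definition and `A/J`
finite, are quotients of `SL_n(ℤ)`. In such a quotient every elementary matrix is a central
commutator `[x, y]` of a Heisenberg group, so its order is bounded in terms of `d` and `p`, uniformly
for all commutative rings of characteristic `p` (determinants on eigenspaces over fields, the
universal ring in general). Modulo the normal closure of the `M`-th powers of the elementary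
matrices the congruence subgroup of level `M` is central, and Schur's theorem bounds the order of
the quotient. By Krull's intersection theorem the finite quotients `A/J` separate the points of `A`.

Parts of the proof (folder `Pool/Agent/N702/CP`): `GEN.lean` by helper371, `CEN.lean` by helper736,
`BND.lean` by helper395, `FLD.lean` by helper218, `UNI.lean` by helper409, `SEP.lean` by helper373.
-/

set_option autoImplicit false

namespace Pool.Agent.Results.MP_a2a22c_al.PositiveCharacteristic

/-- All finite quotients of `Λ` are quotients of `SL_n(ℤ)`. -/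
def QuotientsOfSL (n : ℕ) (Λ : Type) [Group Λ] : Prop :=
  ∀ (Q : Type) [Group Q] [Finite Q], (∃ f : Λ →* Q, Function.Surjective f) →
    ∃ f : Matrix.SpecialLinearGroup (Fin n) ℤ →* Q, Function.Surjective f

/-- All finite quotients of `SL_n(ℤ)` are quotients of `Λ`. -/
def HasQuotientsOfSL (n : ℕ) (Λ : Type) [Group Λ] : Prop :=
  ∀ (Q : Type) [Group Q] [Finite Q],
    (∃ f : Matrix.SpecialLinearGroup (Fin n) ℤ →* Q, Function.Surjective f) →
    ∃ f : Λ →* Q, Function.Surjective f

/-- a group with the finite quotients of `SL_n(ℤ)` is infinite -/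
lemma infinite_of {n : ℕ} (hn : 3 ≤ n) (Λ : Type) [Group Λ] (h : HasQuotientsOfSL n Λ) :
    Infinite Λ := by
  by_contra hc
  have hfin : Finite Λ := not_infinite_iff_finite.1 hc
  set q : ℕ := Nat.card Λ + 1 with hq
  have : NeZero q := ⟨by omega⟩
  let r : Matrix.SpecialLinearGroup (Fin n) ℤ →* Matrix.SpecialLinearGroup (Fin n) (ZMod q) :=
    Matrix.SpecialLinearGroup.map (Int.castRingHom (ZMod q))
  have hfin2 : Finite (Matrix.SpecialLinearGroup (Fin n) (ZMod q)) :=
    Finite.of_injective (fun u : Matrix.SpecialLinearGroup (Fin n) (ZMod q) =>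
      (u : Matrix (Fin n) (Fin n) (ZMod q))) Subtype.val_injective
  obtain ⟨f, hf⟩ := h r.range ⟨r.rangeRestrict, r.rangeRestrict_surjective⟩
  have h1 : Nat.card r.range ≤ Nat.card Λ := Nat.card_le_card_of_surjective f hf
  let i0 : Fin n := ⟨0, by omega⟩
  let i1 : Fin n := ⟨1, by omega⟩
  have hne : i0 ≠ i1 := by
    intro h
    have := congrArg Fin.val h
    simp [i0, i1] at this
  have hinj : Function.Injective (fun k : Fin q =>
      (⟨r (Pool.Agent.N702.CP.el i0 i1 hne (k : ℕ)), ⟨_, rfl⟩⟩ : r.range)) := by
    intro k l hkl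
    have h2 : r (Pool.Agent.N702.CP.el i0 i1 hne (k : ℕ)) =
        r (Pool.Agent.N702.CP.el i0 i1 hne (l : ℕ)) := congrArg Subtype.val hkl
    have h3 := congrArg (fun u : Matrix.SpecialLinearGroup (Fin n) (ZMod q) =>
      (u : Matrix (Fin n) (Fin n) (ZMod q)) i0 i1) h2
    have h4 : ∀ m : ℕ, ((r (Pool.Agent.N702.CP.el i0 i1 hne (m : ℤ)) :
        Matrix.SpecialLinearGroup (Fin n) (ZMod q)) : Matrix (Fin n) (Fin n) (ZMod q)) i0 i1 =
        (m : ZMod q) := by
      intro m
      change (((Matrix.transvection i0 i1 (m : ℤ)) i0 i1 : ℤ) : ZMod q) = _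
      simp [Matrix.transvection, hne]
    simp only [h4] at h3
    have h5 := (ZMod.natCast_eq_natCast_iff' _ _ _).1 h3
    rw [Nat.mod_eq_of_lt k.2, Nat.mod_eq_of_lt l.2] at h5
    exact Fin.ext h5
  have h6 := Nat.card_le_card_of_injective _ hinj
  rw [Nat.card_fin] at h6
  omega

/-- For `n ≥ 3`, a prime `p` and `d` there is `B` such that for every finitely generated group `Λ`
all of whose finite quotients are quotients of `SL_n(ℤ)` and every commutative ring `R` of
characteristic `p`, every homomorphism `ρ : Λ → GL_d(R)` has finite image of order at most `B`; and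
`ρ` is not injective if `Λ` has the same finite quotients as `SL_n(ℤ)`. -/
theorem result (n : ℕ) (hn : 3 ≤ n) (p : ℕ) (hp : p.Prime) (d : ℕ) : ∃ B : ℕ,
    ∀ (Λ : Type) [Group Λ] [Group.FG Λ], QuotientsOfSL n Λ →
      ∀ (R : Type) [CommRing R] [CharP R p] (ρ : Λ →* Matrix.GeneralLinearGroup (Fin d) R),
        Finite ρ.range ∧ Nat.card ρ.range ≤ B ∧
          (HasQuotientsOfSL n Λ → ¬ Function.Injective ρ) := by
  obtain ⟨B, hB⟩ := Pool.Agent.N702.CP.Asm.main
    (Pool.Agent.N702.CP.t_UNI Pool.Agent.N702.CP.t_FLD)
    (Pool.Agent.N702.CP.t_BND Pool.Agent.N702.CP.t_GEN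
      (Pool.Agent.N702.CP.t_CEN Pool.Agent.N702.CP.t_GEN))
    Pool.Agent.N702.CP.t_SEP n hn p hp d
  refine ⟨B, fun Λ _ _ hΛ R _ _ ρ => ?_⟩
  obtain ⟨h1, h2⟩ := hB Λ hΛ R ρ
  refine ⟨h1, h2, fun h3 hinj => ?_⟩
  have h4 := infinite_of hn Λ h3
  have h5 : Finite Λ := Finite.of_injective (fun x : Λ => (⟨ρ x, ⟨x, rfl⟩⟩ : ρ.range))
    fun x y hxy => hinj (congrArg Subtype.val hxy)
  exact not_finite Λ

end Pool.Agent.Results.MP_a2a22c_al.PositiveCharacteristic
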