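import Pool.Agent.N702.CP.Asm2
import Pool.Agent.N702.CP.UNP
import Pool.Agent.N702.CP.TRV
import Pool.Agent.N702.CP.RNG
import Pool.Agent.N702.CP.SEPZ

/-!
# No small linear representations of the groups with the finite quotients of `SL_n(ℤ)`, `n ≥ 3`

Let `n ≥ 3` and let `Λ` be a finitely generated group all of whose finite quotients are quotients of
`SL_n(ℤ)`. Then every homomorphism `Λ → GL_d(R)` with `d < n` is trivial, for every commutative ring
`R`, of any characteristic.

Proof. By Krull's intersection theorem (the residue fields of finitely generated rings are finite)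
it is enough that every homomorphism `SL_n(ℤ) → GL_d(R)` is trivial for finite commutative rings
`R`; `SL_n(ℤ)` is perfect, so it is enough to have it for algebraically closed fields `K` of every
characteristic. In dimension less than `n` the joint generalized eigenvalues of the commuting
elementary matrices of one row form a finite set of fewer than `n` characters, stable under
`SL_{n-1}(ℤ)`; so they are trivial, and the elementary matrices act unipotently. Then the fixed
space of this row and induction on `n` show that the representation is trivial.

Parts of the proof (folder `Pool/Agent/N702/CP`): `GEN.lean` by helper371, `UNP.lean` by helper221,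
`TRV.lean` by helper291, `RNG.lean` by helper377, `SEPZ.lean` by helper439.
-/

set_option autoImplicit false

namespace Pool.Agent.Results.MP_a2a22c_al.SmallRepresentations

/-- All finite quotients of `Λ` are quotients of `SL_n(ℤ)`. -/
def QuotientsOfSL (n : ℕ) (Λ : Type) [Group Λ] : Prop :=
  ∀ (Q : Type) [Group Q] [Finite Q], (∃ f : Λ →* Q, Function.Surjective f) →
    ∃ f : Matrix.SpecialLinearGroup (Fin n) ℤ →* Q, Function.Surjective f

/-- Let `n ≥ 3` and `d < n`. If all finite quotients of the finitely generated group `Λ` are
quotients of `SL_n(ℤ)`, then every homomorphism `ρ : Λ → GL_d(R)`, `R` a commutative ring, is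
trivial. -/
theorem result (n : ℕ) (hn : 3 ≤ n) (d : ℕ) (hd : d < n) (Λ : Type) [Group Λ] [Group.FG Λ]
    (hΛ : QuotientsOfSL n Λ) (R : Type) [CommRing R]
    (ρ : Λ →* Matrix.GeneralLinearGroup (Fin d) R) (x : Λ) : ρ x = 1 :=
  Pool.Agent.N702.CP.Asm2.main (Pool.Agent.N702.CP.t_RNG (Pool.Agent.N702.CP.t_TRV
    Pool.Agent.N702.CP.t_UNP)) Pool.Agent.N702.CP.t_SEPZ n hn d hd Λ hΛ R ρ x

end Pool.Agent.Results.MP_a2a22c_al.SmallRepresentations
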